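import Mathlib

set_option autoImplicit false

namespace Pool.Agent.Results.MP_462016_an.NoTwoValued

open Finset Complex

/-- The value at `t` of the trigonometric polynomial `∑_{x ∈ E} c_x e^{2πi x t / n}`. -/
noncomputable def trigPoly (n : ℕ) (E : Finset (ZMod n)) (c : ZMod n → ℂ) (t : ZMod n) : ℂ :=
  ∑ x ∈ E, c x * Complex.exp (2 * Real.pi * Complex.I * ((x.val : ℂ) * (t.val : ℂ)) / (n : ℂ))

lemma exp_eq (n : ℕ) [NeZero n] (x t : ZMod n) :
    Complex.exp (2 * Real.pi * Complex.I * ((x.val : ℂ) * (t.val : ℂ)) / (n : ℂ)) =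
      ZMod.stdAddChar (x * t) := by
  have h := ZMod.stdAddChar_coe (N := n) ((x.val : ℤ) * (t.val : ℤ))
  have e : (((x.val : ℤ) * (t.val : ℤ) : ℤ) : ZMod n) = x * t := by
    push_cast
    rw [ZMod.natCast_zmod_val, ZMod.natCast_zmod_val]
  rw [e] at h
  rw [h]
  push_cast
  rfl

/-- Flatness gives vanishing autocorrelations. -/
lemma auto_of_flat (n : ℕ) [NeZero n] (d : ZMod n → ℂ) (N : ℝ)
    (hf : ∀ t : ZMod n, ‖∑ x : ZMod n, d x * ZMod.stdAddChar (x * t)‖ ^ 2 = N)
    (s : ZMod n) (hs : s ≠ 0) : ∑ x : ZMod n, d x * star (d (x + s)) = 0 := by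
  have hn : (n : ℂ) ≠ 0 := by exact_mod_cast NeZero.ne n
  have hconj : ∀ x : ZMod n, star ((ZMod.stdAddChar x : ℂ)) = ZMod.stdAddChar (-x) := by
    intro x
    rw [AddChar.map_neg_eq_conj]
    rfl
  have h1 : ∑ t : ZMod n, ((‖∑ x : ZMod n, d x * ZMod.stdAddChar (x * t)‖ ^ 2 : ℝ) : ℂ) *
      ZMod.stdAddChar (t * s) = 0 := by
    have e : ∀ t : ZMod n, ((‖∑ x : ZMod n, d x * ZMod.stdAddChar (x * t)‖ ^ 2 : ℝ) : ℂ) *
      ZMod.stdAddChar (t * s) = (N : ℂ) * ZMod.stdAddChar (t * s) := by
      intro t; rw [hf t]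
    rw [Finset.sum_congr rfl fun t _ => e t, ← Finset.mul_sum,
      AddChar.sum_mulShift _ (ZMod.isPrimitive_stdAddChar n), if_neg hs]
    simp
  have h2 : ∑ t : ZMod n, ((‖∑ x : ZMod n, d x * ZMod.stdAddChar (x * t)‖ ^ 2 : ℝ) : ℂ) *
      ZMod.stdAddChar (t * s) = n * ∑ x : ZMod n, d x * star (d (x + s)) := by
    have e1 : ∀ t : ZMod n, ((‖∑ x : ZMod n, d x * ZMod.stdAddChar (x * t)‖ ^ 2 : ℝ) : ℂ) *
        ZMod.stdAddChar (t * s) =
        ∑ x : ZMod n, ∑ y : ZMod n, (d x * star (d y)) * ZMod.stdAddChar (t * (x - y + s)) := by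
      intro t
      rw [← Complex.normSq_eq_norm_sq, ← Complex.mul_conj]
      have e4 : (starRingEnd ℂ) (∑ x : ZMod n, d x * ZMod.stdAddChar (x * t)) =
          ∑ y : ZMod n, star (d y) * ZMod.stdAddChar (-(y * t)) := by
        rw [map_sum]
        refine Finset.sum_congr rfl fun y _ => ?_
        rw [map_mul, ← hconj]
        rfl
      rw [e4, Finset.sum_mul_sum, Finset.sum_mul]
      refine Finset.sum_congr rfl fun x _ => ?_
      rw [Finset.sum_mul]
      refine Finset.sum_congr rfl fun y _ => ?_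
      have e6 : (ZMod.stdAddChar (x * t) : ℂ) * ZMod.stdAddChar (-(y * t)) *
          ZMod.stdAddChar (t * s) = ZMod.stdAddChar (t * (x - y + s)) := by
        rw [← AddChar.map_add_eq_mul, ← AddChar.map_add_eq_mul]
        congr 1
        ring
      linear_combination (d x * star (d y)) * e6
    rw [Finset.sum_congr rfl fun t _ => e1 t, Finset.sum_comm, Finset.mul_sum]
    refine Finset.sum_congr rfl fun x _ => ?_
    rw [Finset.sum_comm]
    have e3 : ∀ y : ZMod n, ∑ t : ZMod n, (d x * star (d y)) * ZMod.stdAddChar (t * (x - y + s)) =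
        if y = x + s then n * (d x * star (d (x + s))) else 0 := by
      intro y
      rw [← Finset.mul_sum, AddChar.sum_mulShift _ (ZMod.isPrimitive_stdAddChar n)]
      split_ifs with h1 h2 h2
      · subst h2
        rw [ZMod.card]
        ring
      · exact absurd (by linear_combination -h1) h2
      · subst h2
        exact absurd (by ring) h1
      · simp
    rw [Finset.sum_congr rfl fun y _ => e3 y, Finset.sum_ite_eq', if_pos (Finset.mem_univ _)]
  rw [h1] at h2
  exact (mul_eq_zero.1 h2.symm).resolve_left hn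

/-- The combinatorial core. -/
lemma core (n : ℕ) [NeZero n] (hn : n % 4 = 3) (a b : ℂ) (ha : ‖a‖ = 1) (hb : ‖b‖ = 1)
    (d : ZMod n → ℂ) (hd0 : d 0 = 0) (hd : ∀ x, x ≠ 0 → d x = a ∨ d x = b)
    (hauto : ∀ s : ZMod n, s ≠ 0 → ∑ x : ZMod n, d x * star (d (x + s)) = 0) : False := by
  classical
  -- the signs
  set X : ZMod n → ℤ := fun x => if x = 0 then 0 else if d x = a then 1 else -1 with hX
  set W : ZMod n → ℤ := fun x => if x = 0 then 0 else 1 with hW
  have hX0 : X 0 = 0 := by simp [hX]
  have hX1 : ∀ x, x ≠ 0 → X x = 1 ∨ X x = -1 := by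
    intro x hx
    simp only [hX, if_neg hx]
    split_ifs <;> simp
  set α : ℂ := (a + b) / 2 with hα
  set β : ℂ := (a - b) / 2 with hβ
  have hdX : ∀ x, d x = α * (W x : ℂ) + β * (X x : ℂ) := by
    intro x
    by_cases hx : x = 0
    · subst hx
      simp [hd0, hX, hW]
    · by_cases h1 : d x = a
      · simp only [hX, hW, if_neg hx, if_pos h1, hα, hβ]
        rw [h1]; push_cast; ring
      · have h2 := (hd x hx).resolve_left h1
        simp only [hX, hW, if_neg hx, if_neg h1, hα, hβ]
        rw [h2]; push_cast; ring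
  have haa : a * star a = 1 := by
    have h2 : a * (starRingEnd ℂ) a = 1 := by
      rw [Complex.mul_conj, Complex.normSq_eq_norm_sq, ha]; norm_num
    exact h2
  have hbb : b * star b = 1 := by
    have h2 : b * (starRingEnd ℂ) b = 1 := by
      rw [Complex.mul_conj, Complex.normSq_eq_norm_sq, hb]; norm_num
    exact h2
  have hstarα : star α = (star a + star b) / 2 := by
    have : (starRingEnd ℂ) ((a + b) / 2) = ((starRingEnd ℂ) a + (starRingEnd ℂ) b) / 2 := by
      rw [map_div₀, map_add, map_ofNat]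
    exact this
  have hstarβ : star β = (star a - star b) / 2 := by
    have : (starRingEnd ℂ) ((a - b) / 2) = ((starRingEnd ℂ) a - (starRingEnd ℂ) b) / 2 := by
      rw [map_div₀, map_sub, map_ofNat]
    exact this
  have hcross : α * star β + β * star α = 0 := by
    rw [hstarα, hstarβ, hα, hβ]
    linear_combination (1 / 2) * haa - (1 / 2) * hbb
  have hsum1 : α * star α + β * star β = 1 := by
    rw [hstarα, hstarβ, hα, hβ]
    linear_combination (1 / 2) * haa + (1 / 2) * hbb
  -- correlations
  set σ : ℤ := ∑ x, X x with hσ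
  have eW : ∀ s, s ≠ 0 → ∑ x : ZMod n, W x * W (x + s) = (n : ℤ) - 2 := by
    intro s hs
    have e2 : ∀ x : ZMod n, W x * W (x + s) =
        1 - (if x = 0 then 1 else 0) - (if x = -s then 1 else 0) := by
      intro x
      simp only [hW]
      by_cases h1 : x = 0
      · subst h1
        have : ¬ (0 : ZMod n) = -s := fun h => hs (by simpa using h.symm)
        simp [this]
      · by_cases h2 : x = -s
        · subst h2
          simp [hs]
        · have h3 : x + s ≠ 0 := fun h => h2 (eq_neg_of_add_eq_zero_left h)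
          simp [h1, h2, h3]
    rw [Finset.sum_congr rfl fun x _ => e2 x, Finset.sum_sub_distrib, Finset.sum_sub_distrib]
    simp [ZMod.card]
    ring
  have eXW : ∀ s, ∑ x : ZMod n, X x * W (x + s) = σ - X (-s) := by
    intro s
    have e2 : ∀ x : ZMod n, X x * W (x + s) = X x - (if x = -s then X (-s) else 0) := by
      intro x
      simp only [hW]
      by_cases h2 : x = -s
      · subst h2
        simp
      · have h3 : x + s ≠ 0 := fun h => h2 (eq_neg_of_add_eq_zero_left h)
        simp [h2, h3]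
    rw [Finset.sum_congr rfl fun x _ => e2 x, Finset.sum_sub_distrib]
    simp [hσ]
  have eWX : ∀ s, ∑ x : ZMod n, W x * X (x + s) = σ - X s := by
    intro s
    have e2 : ∀ x : ZMod n, W x * X (x + s) = X (x + s) - (if x = 0 then X s else 0) := by
      intro x
      simp only [hW]
      by_cases h2 : x = 0
      · subst h2
        simp
      · simp [h2]
    rw [Finset.sum_congr rfl fun x _ => e2 x, Finset.sum_sub_distrib]
    have e3 : ∑ x : ZMod n, X (x + s) = σ := Equiv.sum_comp (Equiv.addRight s) X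
    rw [e3]
    simp
  set R : ZMod n → ℤ := fun s => ∑ x, X x * X (x + s) with hR
  have hexp : ∀ s, s ≠ 0 → α * star α * ((n : ℂ) - 2) + β * star β * (R s : ℂ) +
      α * star β * ((σ : ℂ) - X s) + β * star α * ((σ : ℂ) - X (-s)) = 0 := by
    intro s hs
    rw [← hauto s hs]
    have e1 : ∀ x : ZMod n, d x * star (d (x + s)) =
        α * star α * ((W x * W (x + s) : ℤ) : ℂ) + β * star β * ((X x * X (x + s) : ℤ) : ℂ) +
        α * star β * ((W x * X (x + s) : ℤ) : ℂ) + β * star α * ((X x * W (x + s) : ℤ) : ℂ) := by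
      intro x
      have e5 : star (d (x + s)) = star α * (W (x + s) : ℂ) + star β * (X (x + s) : ℂ) := by
        rw [hdX (x + s)]
        have : (starRingEnd ℂ) (α * (W (x + s) : ℂ) + β * (X (x + s) : ℂ)) =
            (starRingEnd ℂ) α * (W (x + s) : ℂ) + (starRingEnd ℂ) β * (X (x + s) : ℂ) := by
          rw [map_add, map_mul, map_mul]
          simp
        exact this
      rw [e5, hdX x]
      push_cast
      ring
    rw [Finset.sum_congr rfl fun x _ => e1 x, Finset.sum_add_distrib, Finset.sum_add_distrib,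
      Finset.sum_add_distrib, ← Finset.mul_sum, ← Finset.mul_sum, ← Finset.mul_sum,
      ← Finset.mul_sum, ← Int.cast_sum, ← Int.cast_sum, ← Int.cast_sum, ← Int.cast_sum,
      eW s hs, eXW s, eWX s]
    simp only [hR]
    push_cast
    ring
  -- real numbers
  set A : ℝ := ‖α‖ ^ 2 with hA
  set B : ℝ := ‖β‖ ^ 2 with hB
  have hAα : α * star α = (A : ℂ) := by
    have : α * (starRingEnd ℂ) α = (A : ℂ) := by
      rw [Complex.mul_conj, Complex.normSq_eq_norm_sq]
    exact this
  have hBβ : β * star β = (B : ℂ) := by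
    have : β * (starRingEnd ℂ) β = (B : ℂ) := by
      rw [Complex.mul_conj, Complex.normSq_eq_norm_sq]
    exact this
  have hAB : A + B = 1 := by
    rw [hAα, hBβ] at hsum1
    exact_mod_cast hsum1
  have hA0 : 0 ≤ A := sq_nonneg _
  have hB0 : 0 ≤ B := sq_nonneg _
  have hmain : ∀ s, s ≠ 0 → (A : ℂ) * ((n : ℂ) - 2) + (B : ℂ) * (R s : ℂ) +
      α * star β * ((X (-s) : ℂ) - X s) = 0 := by
    intro s hs
    have h := hexp s hs
    rw [hAα, hBβ] at h
    linear_combination h - ((σ : ℂ) - X (-s)) * hcross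
  -- `α * star β` is purely imaginary
  have hre : (α * star β).re = 0 := by
    have h1 : star (α * star β) = β * star α := by rw [star_mul, star_star]
    have h2 : (star (α * star β)).re = (α * star β).re := rfl
    have h3 := congrArg Complex.re hcross
    rw [Complex.add_re, ← h1, h2, Complex.zero_re] at h3
    linarith
  have hRe : ∀ s, s ≠ 0 → A * ((n : ℝ) - 2) + B * (R s : ℝ) = 0 := by
    intro s hs
    have h := congrArg Complex.re (hmain s hs)
    have h5 : ((A : ℂ) * ((n : ℂ) - 2) + (B : ℂ) * (R s : ℂ)) =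
        ((A * ((n : ℝ) - 2) + B * (R s : ℝ) : ℝ) : ℂ) := by push_cast; ring
    have h6 : ((X (-s) : ℂ) - X s) = ((((X (-s) : ℤ) : ℝ) - ((X s : ℤ) : ℝ) : ℝ) : ℂ) := by
      push_cast; ring
    rw [h5, h6, Complex.add_re, Complex.ofReal_re, Complex.re_mul_ofReal, hre, zero_mul,
      add_zero, Complex.zero_re] at h
    exact h
  have hIm : ∀ s, s ≠ 0 → α * star β * ((X (-s) : ℂ) - X s) = 0 := by
    intro s hs
    have h := hmain s hs
    have h5 : ((A : ℂ) * ((n : ℂ) - 2) + (B : ℂ) * (R s : ℂ)) =
        ((A * ((n : ℝ) - 2) + B * (R s : ℝ) : ℝ) : ℂ) := by push_cast; ring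
    rw [h5, hRe s hs] at h
    simpa using h
  have hn3 : (3 : ℝ) ≤ n := by
    have : 3 ≤ n := by omega
    exact_mod_cast this
  have hBpos : 0 < B := by
    rcases hB0.lt_or_eq with h | h
    · exact h
    · exfalso
      haveI : Fact (1 < n) := ⟨by omega⟩
      have h1 := hRe 1 one_ne_zero
      rw [← h] at h1 hAB
      have : A = 1 := by linarith
      rw [this] at h1
      linarith
  -- `R` is constant `-1`
  have hRodd : ∀ s, s ≠ 0 → R s % 2 = 1 := by
    intro s hs
    have h1 : ∀ x, (2 : ℤ) ∣ X x * X (x + s) - W x * W (x + s) := by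
      intro x
      by_cases hx : x = 0
      · subst hx; simp [hX, hW]
      · by_cases hxs : x + s = 0
        · simp [hX, hW, hxs]
        · have hw1 : W x = 1 := by simp [hW, hx]
          have hw2 : W (x + s) = 1 := by simp [hW, hxs]
          rw [hw1, hw2]
          rcases hX1 x hx with h | h <;> rcases hX1 _ hxs with h' | h' <;> rw [h, h'] <;> norm_num
    have h2 : (2 : ℤ) ∣ ∑ x, (X x * X (x + s) - W x * W (x + s)) :=
      Finset.dvd_sum fun x _ => h1 x
    rw [Finset.sum_sub_distrib, eW s hs] at h2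
    have h3 : (2 : ℤ) ∣ R s - ((n : ℤ) - 2) := h2
    omega
  have hRsum : ∑ s ∈ univ.erase (0 : ZMod n), R s = σ ^ 2 - ((n : ℤ) - 1) := by
    have h1 : ∑ s : ZMod n, R s = σ ^ 2 := by
      simp only [hR]
      rw [Finset.sum_comm, sq, hσ, Finset.sum_mul]
      refine Finset.sum_congr rfl fun x _ => ?_
      rw [← Finset.mul_sum]
      congr 1
      exact Equiv.sum_comp (Equiv.addLeft x) X
    have h2 : R 0 = (n : ℤ) - 1 := by
      have e : ∀ x : ZMod n, X x * X (x + 0) = 1 - if x = 0 then 1 else 0 := by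
        intro x
        rw [add_zero]
        by_cases hx : x = 0
        · simp [hx, hX0]
        · rcases hX1 x hx with h | h <;> simp [h, hx]
      simp only [hR]
      rw [Finset.sum_congr rfl fun x _ => e x, Finset.sum_sub_distrib]
      simp [ZMod.card]
    have h3 := Finset.add_sum_erase univ R (Finset.mem_univ (0 : ZMod n))
    rw [h1, h2] at h3
    linarith
  haveI : Fact (1 < n) := ⟨by omega⟩
  have hconst : ∀ s, s ≠ 0 → R s = R 1 := by
    intro s hs
    have h1 := hRe s hs
    have h2 := hRe 1 one_ne_zero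
    have h3 : B * ((R s : ℝ) - (R 1 : ℝ)) = 0 := by linarith
    have h4 := (mul_eq_zero.1 h3).resolve_left hBpos.ne'
    have h5 : (R s : ℝ) = (R 1 : ℝ) := by linarith
    exact_mod_cast h5
  have hsum2 : ((n : ℤ) - 1) * R 1 = σ ^ 2 - ((n : ℤ) - 1) := by
    rw [← hRsum, Finset.sum_congr rfl fun s hs => hconst s (Finset.ne_of_mem_erase hs),
      Finset.sum_const, Finset.card_erase_of_mem (Finset.mem_univ _), Finset.card_univ, ZMod.card,
      nsmul_eq_mul, Nat.cast_sub (by omega)]
    push_cast
    ring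
  have hR1neg : R 1 ≤ 0 := by
    have h2 := hRe 1 one_ne_zero
    have h3 : (R 1 : ℝ) ≤ 0 := by
      by_contra hcon
      push Not at hcon
      have h4 : 0 < B * (R 1 : ℝ) := mul_pos hBpos hcon
      have h5 : 0 ≤ A * ((n : ℝ) - 2) := mul_nonneg hA0 (by linarith)
      linarith
    exact_mod_cast h3
  have hR1 : R 1 = -1 := by
    have h1 := hRodd 1 one_ne_zero
    have h2 : -1 ≤ R 1 := by
      by_contra hcon
      push Not at hcon
      have h4 : (0 : ℤ) < (n : ℤ) - 1 := by
        have : 3 ≤ n := by omega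
        have : (3 : ℤ) ≤ n := by exact_mod_cast this
        linarith
      have h3 := sq_nonneg σ
      nlinarith
    omega
  have hσ0 : σ = 0 := by
    rw [hR1] at hsum2
    have : σ ^ 2 = 0 := by linarith
    exact pow_eq_zero_iff (two_ne_zero) |>.1 this
  have hα0 : α ≠ 0 := by
    intro h
    have h2 := hRe 1 one_ne_zero
    rw [hR1] at h2
    have : A = 0 := by rw [hA, h]; simp
    rw [this] at h2 hAB
    push_cast at h2
    linarith
  have hβ0 : β ≠ 0 := by
    intro h
    have : B = 0 := by rw [hB, h]; simp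
    linarith
  have hsymm : ∀ s, X (-s) = X s := by
    intro s
    by_cases hs : s = 0
    · subst hs; simp
    · have h1 := hIm s hs
      have h2 : α * star β ≠ 0 := mul_ne_zero hα0 (by simpa using hβ0)
      have h3 := (mul_eq_zero.1 h1).resolve_left h2
      have h4 : (X (-s) : ℂ) = (X s : ℂ) := sub_eq_zero.1 h3
      exact_mod_cast h4
  -- the set where `X = 1` is symmetric, so of even size
  set P : Finset (ZMod n) := univ.filter (fun x => X x = 1) with hP
  have hPeven : Even P.card := by
    have h1 : ∑ x ∈ P, (1 : ZMod 2) = 0 := by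
      apply Finset.sum_involution (fun x _ => -x)
      · intro x _; decide
      · intro x hx _ h
        have hx1 : X x = 1 := (Finset.mem_filter.1 hx).2
        have hx0 : x ≠ 0 := by
          rintro rfl
          rw [hX0] at hx1
          exact absurd hx1 (by norm_num)
        apply hx0
        have h2 : (2 : ZMod n) * x = 0 := by linear_combination -h
        have hu : IsUnit (2 : ZMod n) := by
          have : ((2 : ℕ) : ZMod n) = 2 := by norm_cast
          rw [← this, ZMod.isUnit_iff_coprime]
          rw [Nat.coprime_two_left]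
          rw [Nat.odd_iff]
          omega
        exact (hu.mul_right_eq_zero).1 h2
      · intro x _; exact neg_neg x
      · intro x hx
        have hx1 : X x = 1 := (Finset.mem_filter.1 hx).2
        exact Finset.mem_filter.2 ⟨Finset.mem_univ _, by rw [hsymm]; exact hx1⟩
    rw [Finset.sum_const, nsmul_eq_mul, mul_one] at h1
    exact (ZMod.natCast_eq_zero_iff_even).1 h1
  have hPcard : 2 * (P.card : ℤ) = (n : ℤ) - 1 := by
    have e : ∀ x : ZMod n, X x = 2 * (if X x = 1 then 1 else 0) - (1 - if x = 0 then 1 else 0) := by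
      intro x
      by_cases hx : x = 0
      · simp [hx, hX0]
      · rcases hX1 x hx with h | h <;> simp [h, hx]
    have h1 : σ = 2 * (P.card : ℤ) - ((n : ℤ) - 1) := by
      rw [hσ, Finset.sum_congr rfl fun x _ => e x, Finset.sum_sub_distrib, Finset.sum_sub_distrib,
        ← Finset.mul_sum]
      simp [ZMod.card, hP]
    linarith
  obtain ⟨r, hr⟩ := hPeven
  omega

/-- **Partial result on Q1.** Let `n ≡ 3 (mod 4)` and let `E ⊆ ℤ_n` have `n - 1` elements. No
function `c` which, after multiplication by a character of `ℤ_n`, takes at most two values (of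
modulus one) on `E` satisfies `|∑_{x ∈ E} c_x e^{2πi x t / n}|² = n - 1` for all `t`. -/
theorem result :
    ∀ n : ℕ, n % 4 = 3 → ∀ E : Finset (ZMod n), E.card = n - 1 →
      ∀ (a b : ℂ), ‖a‖ = 1 → ‖b‖ = 1 → ∀ (τ : ZMod n) (c : ZMod n → ℂ),
        (∀ x ∈ E, c x = a * Complex.exp (2 * Real.pi * Complex.I * ((x.val : ℂ) * (τ.val : ℂ)) / (n : ℂ)) ∨
          c x = b * Complex.exp (2 * Real.pi * Complex.I * ((x.val : ℂ) * (τ.val : ℂ)) / (n : ℂ))) →
        ¬ (∀ t : ZMod n, ‖trigPoly n E c t‖ ^ 2 = (E.card : ℝ)) := by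
  intro n hn E hE a b ha hb τ c hc hflat
  haveI : NeZero n := ⟨by omega⟩
  obtain ⟨z, hz⟩ : ∃ z, E = univ.erase z := by
    have h1 : Eᶜ.card = 1 := by
      rw [Finset.card_compl, ZMod.card, hE]
      omega
    obtain ⟨z, hz⟩ := Finset.card_eq_one.1 h1
    refine ⟨z, ?_⟩
    rw [← compl_compl E, hz]
    ext x
    simp
  subst hz
  classical
  set d : ZMod n → ℂ := fun x => if x = 0 then 0 else c (x + z) * ZMod.stdAddChar (-(x * τ)) with hd
  apply core n hn (a * ZMod.stdAddChar (z * τ)) (b * ZMod.stdAddChar (z * τ))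
    (by rw [norm_mul, ha, AddChar.norm_apply, one_mul])
    (by rw [norm_mul, hb, AddChar.norm_apply, one_mul]) d (by simp [hd])
  · intro x hx
    have hxz : x + z ∈ univ.erase z := Finset.mem_erase.2 ⟨fun h => hx (by simpa using h),
      Finset.mem_univ _⟩
    have hdx : d x = c (x + z) * ZMod.stdAddChar (-(x * τ)) := by simp [hd, hx]
    have e : (ZMod.stdAddChar ((x + z) * τ) : ℂ) * ZMod.stdAddChar (-(x * τ)) =
        ZMod.stdAddChar (z * τ) := by
      rw [← AddChar.map_add_eq_mul]
      congr 1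
      ring
    rcases hc _ hxz with h | h
    · left
      rw [hdx, h, exp_eq, mul_assoc, e]
    · right
      rw [hdx, h, exp_eq, mul_assoc, e]
  · intro s hs
    apply auto_of_flat n d (((univ.erase z : Finset (ZMod n)).card : ℕ) : ℝ) _ s hs
    intro t
    have h1 := hflat (t - τ)
    have e1 : trigPoly n (univ.erase z) c (t - τ) =
        ZMod.stdAddChar (z * (t - τ)) * ∑ x : ZMod n, d x * ZMod.stdAddChar (x * t) := by
      unfold trigPoly
      have e2 : ∑ x ∈ univ.erase z, c x * Complex.exp (2 * Real.pi * Complex.I *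
          ((x.val : ℂ) * ((t - τ).val : ℂ)) / (n : ℂ)) =
          ∑ x : ZMod n, if x = z then 0 else c x * ZMod.stdAddChar (x * (t - τ)) := by
        rw [← Finset.add_sum_erase univ _ (Finset.mem_univ z), if_pos rfl, zero_add]
        refine Finset.sum_congr rfl fun x hx => ?_
        rw [if_neg (Finset.ne_of_mem_erase hx), exp_eq]
      rw [e2, ← Equiv.sum_comp (Equiv.addRight z), Finset.mul_sum]
      refine Finset.sum_congr rfl fun x _ => ?_
      rw [Equiv.coe_addRight]
      by_cases hx : x = 0
      · subst hx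
        simp [hd]
      · have hxz : ¬ (x + z = z) := fun h => hx (by simpa using h)
        rw [if_neg hxz]
        have hdx : d x = c (x + z) * ZMod.stdAddChar (-(x * τ)) := by simp [hd, hx]
        rw [hdx]
        have e : (ZMod.stdAddChar ((x + z) * (t - τ)) : ℂ) =
            ZMod.stdAddChar (z * (t - τ)) * (ZMod.stdAddChar (-(x * τ)) *
              ZMod.stdAddChar (x * t)) := by
          rw [← AddChar.map_add_eq_mul, ← AddChar.map_add_eq_mul]
          congr 1
          ring
        rw [e]
        ring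
    rw [e1, norm_mul, AddChar.norm_apply, one_mul] at h1
    exact h1

end Pool.Agent.Results.MP_462016_an.NoTwoValued
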