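import Pool.Agent.Run7.h187.EX.Sid

/-!
# Extreme co-singleton subsets of cyclic groups: two infinite families
-/

set_option autoImplicit false

namespace Pool.Agent.Results.MP_462016_an.TwoInfiniteFamilies

open Finset

/-- The Sidon constant of `E ⊆ ℤ_n`: the supremum of `∑_{x ∈ E} |a x|` over the coefficients `a` for which
`|∑_{x ∈ E} a x e(x t / n)| ≤ 1` for all `t ∈ ℤ_n`. -/
noncomputable def sidon {n : ℕ} [NeZero n] (E : Finset (ZMod n)) : ℝ :=
  sSup {s : ℝ | ∃ a : ZMod n → ℂ, (∀ t : ZMod n, ‖∑ x ∈ E, a x * ZMod.stdAddChar (x * t)‖ ≤ 1) ∧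
    s = ∑ x ∈ E, ‖a x‖}

/-- `E` is extreme: its Sidon constant is `√|E|`. -/
def Extreme {n : ℕ} [NeZero n] (E : Finset (ZMod n)) : Prop := sidon E = Real.sqrt (#E : ℝ)

/-- If `n - 1 ≥ 3` is a prime power or `n` is a prime congruent to `1` modulo `4`, all subsets of `ℤ_n` with `n - 1`
elements are extreme. -/
theorem result (n : ℕ) [NeZero n] (h : (3 ≤ n - 1 ∧ IsPrimePow (n - 1)) ∨ (n.Prime ∧ n % 4 = 1)) :
    ∀ E : Finset (ZMod n), #E = n - 1 → Extreme E := by
  intro E hE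
  rcases h with ⟨h3, hq⟩ | ⟨hp, h4⟩
  · obtain ⟨q, rfl⟩ : ∃ q, n = q + 1 := ⟨n - 1, by omega⟩
    rw [Nat.add_sub_cancel] at h3 hq
    exact Run7.h187.EX.extreme_of_perfect (by omega) (Run7.h187.EX.perfect_primePow q hq h3) E hE
  · haveI : Fact n.Prime := ⟨hp⟩
    have h5 : Run7.h187.EX.Perfect n := by
      have := Run7.h187.EX.perfect_prime n h4
      convert this
    exact Run7.h187.EX.extreme_of_perfect hp.two_le h5 E hE

end Pool.Agent.Results.MP_462016_an.TwoInfiniteFamilies
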